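import Pool.Agent.MP_08482e_nt.Mg.H68_Cor

namespace Pool.Agent.Results.MP_08482e_nt.ExtraRelation

open Pool.Agent.MP_08482e_nt.H68

/-- For every model `zeta ∘ φ` of q-zeta values that agrees with the Schlesinger-Zudilin model up to
lower weight there is a linear relation outside the ideal of the duality relations. -/
theorem result (h : ℚ) (φ : (List ℕ →₀ ℚ) →ₗ[ℚ] (List ℕ →₀ ℚ))
    (hφ : ∀ l : List (ℕ × ℕ), φ (Finsupp.single (word l) 1) - Finsupp.single (word l) 1 ∈
      Submodule.span ℚ {x : List ℕ →₀ ℚ | ∃ m : List (ℕ × ℕ),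
        (m.map fun p => p.1 + p.2 + 1).sum < (l.map fun p => p.1 + p.2 + 1).sum ∧
          x = Finsupp.single (word m) 1}) :
    ∃ x ∈ Submodule.span ℚ {x : List ℕ →₀ ℚ | ∃ l : List (ℕ × ℕ), x = Finsupp.single (word l) 1},
      zeta (φ x) = 0 ∧ x ∉ rel h :=
  extra h φ (by simpa only [wt_word] using hφ)

end Pool.Agent.Results.MP_08482e_nt.ExtraRelation
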