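import Pool.Agent.MP_08482e_nt.Mg.H68_Final

namespace Pool.Agent.Results.MP_08482e_nt.FormalFails

open Pool.Agent.MP_08482e_nt.H68

/-- Modulo the ideal generated by the duality relations for the quasi-shuffle product with
parameter `h`, a word of weight 18 is not a combination of words without the letter `0`. -/
theorem result (h : ℚ) : Finsupp.single [1, 0, 0, 0, 0, 0, 0, 1, 2, 7, 0] 1 ∉
    rel h ⊔ Submodule.span ℚ {x : List ℕ →₀ ℚ | ∃ w : List ℕ, 0 ∉ w ∧ x = Finsupp.single w 1} :=
  formal_fails h

end Pool.Agent.Results.MP_08482e_nt.FormalFails
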