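import Pool.Agent.MP_08482e_nt.Mg.Ser

namespace Pool.Agent.Results.MP_08482e_nt.Refined

open Pool.Agent.MP_08482e_nt

/-- Every bi-bracket with upper row `s`, lower row `r` and depth `l` is a rational linear combination
of brackets of weight at most `∑ s + ∑ r` and of depth at most `min (l + ∑ r) (∑ s)`. -/
theorem result :
    ∀ (l : ℕ) (s r : Fin l → ℕ), (∀ i, 1 ≤ s i) →
      PowerSeries.mk (fun N : ℕ =>
        ∑ p ∈ ((Fintype.piFinset fun _ : Fin l => Finset.range (N + 1)) ×ˢ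
                (Fintype.piFinset fun _ : Fin l => Finset.range (N + 1))).filter
              (fun p => (∀ i j : Fin l, i < j → p.1 j < p.1 i) ∧ (∀ i, 0 < p.1 i) ∧
                (∀ i, 0 < p.2 i) ∧ ∑ i, p.1 i * p.2 i = N),
          ∏ i, (((p.1 i : ℚ) ^ (r i) / (Nat.factorial (r i) : ℚ)) *
                ((p.2 i : ℚ) ^ (s i - 1) / (Nat.factorial (s i - 1) : ℚ))))
      ∈ Submodule.span ℚ
        {f : PowerSeries ℚ | ∃ (k : ℕ) (t : Fin k → ℕ), (∀ i, 1 ≤ t i) ∧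
          ∑ i, t i ≤ ∑ i, s i + ∑ i, r i ∧ k ≤ l + ∑ i, r i ∧ k ≤ ∑ i, s i ∧
          f = PowerSeries.mk (fun N : ℕ =>
            ∑ p ∈ ((Fintype.piFinset fun _ : Fin k => Finset.range (N + 1)) ×ˢ
                    (Fintype.piFinset fun _ : Fin k => Finset.range (N + 1))).filter
                  (fun p => (∀ i j : Fin k, i < j → p.1 j < p.1 i) ∧ (∀ i, 0 < p.1 i) ∧
                    (∀ i, 0 < p.2 i) ∧ ∑ i, p.1 i * p.2 i = N),
              ∏ i, ((p.2 i : ℚ) ^ (t i - 1) / (Nat.factorial (t i - 1) : ℚ)))} := by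
  intro l s r hs
  obtain ⟨f, hf, e⟩ := bi_lim l s r hs
  rw [← lim_Ns l fun i n v => ((n : ℚ) ^ (r i) / (Nat.factorial (r i) : ℚ)) *
    ((v : ℚ) ^ (s i - 1) / (Nat.factorial (s i - 1) : ℚ)), ← e]
  refine span_mem lim ?_ hf
  rintro _ ⟨k, t, a, b, c, rfl⟩
  exact Submodule.subset_span ⟨k, t, a, b, (le_min_iff.1 c).1, (le_min_iff.1 c).2,
    lim_Ns k fun i _ v => (v : ℚ) ^ (t i - 1) / (Nat.factorial (t i - 1) : ℚ)⟩

end Pool.Agent.Results.MP_08482e_nt.Refined
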